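import Mathlib

/-!
# Extensions of the AP-avoiding heap game with a much denser set of P-positions

A ruleset is a set of finite nonempty sets of positive integers.  For a ruleset `R` the set `A_R` of
P-positions is given by: `n ∈ A_R` if and only if there is no `M ∈ R` with `max M ≤ n` and
`{n - m : m ∈ M} ⊆ A_R`.  The base ruleset is `M₀ = {{d, 2 d} : d ≥ 1}`.

We show that some extension `R = M₀ ∪ M'` satisfies `A_R(x) ≥ x exp (- 5 √(log x))` for all large `x`;
in particular the quotient of `A_R(x)` and `x ^ (log 2 / log 3)` has limsup `∞`.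
-/

set_option autoImplicit false

namespace Pool.Agent.Results.MP_c84e26_co.DenserExtension

open Filter Topology

/-- A ruleset is a set of finite nonempty sets of positive integers. -/
def IsRuleset (R : Set (Finset ℕ)) : Prop := ∀ M ∈ R, M.Nonempty ∧ ∀ m ∈ M, 0 < m

/-- `InA R n` says `n ∈ A_R`: there is no `M ∈ R` all of whose elements `m` satisfy `m ≤ n` and
`n - m ∈ A_R` (elements of the sets of a ruleset are positive). -/
def InA (R : Set (Finset ℕ)) (n : ℕ) : Prop :=
  ¬ ∃ M ∈ R, ∃ h : ∀ m ∈ M, 0 < m ∧ m ≤ n, ∀ m, ∀ hm : m ∈ M, InA R (n - m)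
termination_by n
decreasing_by
  have := h m hm
  omega

/-- The set `A_R`. -/
def A (R : Set (Finset ℕ)) : Set ℕ := {n | InA R n}

/-- The counting function `A_R(x) = #{i ∈ A_R : i < x}`. -/
noncomputable def count (R : Set (Finset ℕ)) (x : ℕ) : ℕ := {i : ℕ | i ∈ A R ∧ i < x}.ncard

/-- The base ruleset `{{d, 2 d} : d ≥ 1}`. -/
def M₀ : Set (Finset ℕ) := {M | ∃ d : ℕ, 1 ≤ d ∧ M = {d, 2 * d}}

/-! ## Sets of P-positions -/

theorem inA_iff (R : Set (Finset ℕ)) (n : ℕ) :
    InA R n ↔ ¬ ∃ M ∈ R, (∀ m ∈ M, 0 < m ∧ m ≤ n) ∧ ∀ m ∈ M, InA R (n - m) := by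
  rw [InA]
  constructor
  · rintro h ⟨M, hM, h1, h2⟩
    exact h ⟨M, hM, h1, h2⟩
  · rintro h ⟨M, hM, h1, h2⟩
    exact h ⟨M, hM, h1, h2⟩

/-- The additional rules: `{n - 1, n}` for all `n ≥ 2` outside `T`. -/
def extra (T : Set ℕ) : Set (Finset ℕ) := {M | ∃ n : ℕ, 2 ≤ n ∧ n ∉ T ∧ M = {n - 1, n}}

theorem extra_isRuleset (T : Set ℕ) : IsRuleset (extra T) := by
  rintro M ⟨n, hn, -, rfl⟩
  refine ⟨⟨n, by simp⟩, ?_⟩
  intro m hm
  simp only [Finset.mem_insert, Finset.mem_singleton] at hm
  omega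

theorem A_eq {T : Set ℕ} (h0 : 0 ∈ T) (h1 : 1 ∈ T) (hT : ThreeAPFree T)
    (hc : ∀ a, a ∈ T → a + 1 ∈ T → a = 0) : A (M₀ ∪ extra T) = T := by
  have key : ∀ n, InA (M₀ ∪ extra T) n ↔ n ∈ T := by
    intro n
    induction n using Nat.strong_induction_on with
    | _ n ih =>
      rw [inA_iff]
      constructor
      · intro h
        by_contra hn
        have hn2 : 2 ≤ n := by
          by_contra hlt
          have : n = 0 ∨ n = 1 := by omega
          rcases this with rfl | rfl
          · exact hn h0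
          · exact hn h1
        apply h
        refine ⟨{n - 1, n}, Or.inr ⟨n, hn2, hn, rfl⟩, ?_, ?_⟩
        · intro m hm
          simp only [Finset.mem_insert, Finset.mem_singleton] at hm
          omega
        · intro m hm
          simp only [Finset.mem_insert, Finset.mem_singleton] at hm
          rcases hm with hm | hm
          · have e : n - m = 1 := by omega
            rw [e, ih 1 (by omega)]
            exact h1
          · have e : n - m = 0 := by omega
            rw [e, ih 0 (by omega)]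
            exact h0
      · rintro hn ⟨M, hM, hpos, hall⟩
        rcases hM with ⟨d, hd, rfl⟩ | ⟨k, hk, hkT, rfl⟩
        · have e1 := hpos (2 * d) (by simp)
          have a1 := (ih (n - d) (by omega)).1 (hall d (by simp))
          have a2 := (ih (n - 2 * d) (by omega)).1 (hall (2 * d) (by simp))
          have := hT a2 a1 hn (by omega)
          omega
        · have e1 := hpos k (by simp)
          have a1 := (ih (n - (k - 1)) (by omega)).1 (hall (k - 1) (by simp))
          have a2 := (ih (n - k) (by omega)).1 (hall k (by simp))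
          have a3 : n - (k - 1) = n - k + 1 := by omega
          rw [a3] at a1
          have := hc _ a2 a1
          have hnk : n = k := by omega
          exact hkT (hnk ▸ hn)
  ext n
  exact key n

/-! ## The dense set -/

/-- A largest set of integers in `[0, 4 ^ k)` without three-term progressions. -/
noncomputable def S (k : ℕ) : Finset ℕ := (rothNumberNat_spec (4 ^ k)).choose

theorem S_sub (k : ℕ) : ∀ s ∈ S k, s < 4 ^ k := fun s hs =>
  Finset.mem_range.1 ((rothNumberNat_spec (4 ^ k)).choose_spec.1 hs)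

theorem S_card (k : ℕ) : (S k).card = rothNumberNat (4 ^ k) :=
  (rothNumberNat_spec (4 ^ k)).choose_spec.2.1

theorem S_free (k : ℕ) : ThreeAPFree (S k : Set ℕ) :=
  (rothNumberNat_spec (4 ^ k)).choose_spec.2.2

/-- The set of P-positions which we are going to realise. -/
def T : Set ℕ := {n | n ≤ 1 ∨ ∃ k, ∃ s ∈ S k, n = 4 * 4 ^ k + 2 * s}

theorem pow_lt_pow {j k : ℕ} (h : j < k) : 4 * 4 ^ j ≤ 4 ^ k := by
  have h1 : 4 ^ (j + 1) ≤ 4 ^ k := Nat.pow_le_pow_right (by norm_num) h
  calc 4 * 4 ^ j = 4 ^ (j + 1) := by ring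
    _ ≤ 4 ^ k := h1

theorem T_free_aux {a b c : ℕ} (ha : a ∈ T) (hb : b ∈ T) (hc : c ∈ T) (h : a + c = b + b)
    (hab : a < b) : False := by
  rcases hc with hc | ⟨k, s, hs, rfl⟩
  · omega
  · have hs1 := S_sub k s hs
    have hk1 : 1 ≤ 4 ^ k := Nat.one_le_pow _ _ (by norm_num)
    rcases hb with hb | ⟨j, t, ht, rfl⟩
    · omega
    · have ht1 := S_sub j t ht
      rcases lt_trichotomy j k with hjk | hjk | hjk
      · have := pow_lt_pow hjk
        omega
      · subst hjk
        rcases ha with ha | ⟨i, r, hr, rfl⟩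
        · omega
        · have hr1 := S_sub i r hr
          rcases lt_trichotomy i j with hij | hij | hij
          · have := pow_lt_pow hij
            omega
          · subst hij
            have := S_free i hr ht hs (by omega)
            omega
          · have := pow_lt_pow hij
            omega
      · have := pow_lt_pow hjk
        omega

theorem T_free : ThreeAPFree T := by
  intro a ha b hb c hc h
  rcases lt_trichotomy a b with hab | hab | hab
  · exact (T_free_aux ha hb hc h hab).elim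
  · exact hab
  · exact (T_free_aux hc hb ha (by omega) (by omega)).elim

theorem T_consecutive (a : ℕ) (h : a ∈ T) (h' : a + 1 ∈ T) : a = 0 := by
  rcases h with h | ⟨k, s, hs, rfl⟩
  · rcases h' with h' | ⟨k, s, hs, h'⟩
    · omega
    · have hk1 : 1 ≤ 4 ^ k := Nat.one_le_pow _ _ (by norm_num)
      omega
  · have hk1 : 1 ≤ 4 ^ k := Nat.one_le_pow _ _ (by norm_num)
    rcases h' with h' | ⟨j, t, ht, h'⟩
    · omega
    · omega

theorem T_count {k x : ℕ} (h : 6 * 4 ^ k ≤ x) :
    rothNumberNat (4 ^ k) ≤ {i : ℕ | i ∈ T ∧ i < x}.ncard := by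
  rw [← S_card k, ← Set.ncard_coe_finset, ← Set.ncard_image_of_injective (S k : Set ℕ)
    (f := fun s => 4 * 4 ^ k + 2 * s) (fun s t hst => by
      simp only at hst
      omega)]
  apply Set.ncard_le_ncard
  · rintro _ ⟨s, hs, rfl⟩
    refine ⟨Or.inr ⟨k, s, hs, rfl⟩, ?_⟩
    have := S_sub k s hs
    simp only
    omega
  · exact (Set.finite_lt_nat x).subset (fun i hi => hi.2)

/-! ## The lower bound -/

theorem lower {x : ℕ} (hx : 6 ≤ x) :
    (x : ℝ) / 24 * Real.exp (-4 * √(Real.log x)) ≤ ({i : ℕ | i ∈ T ∧ i < x}.ncard : ℝ) := by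
  obtain ⟨k, hk1, hk2⟩ : ∃ k : ℕ, 6 * 4 ^ k ≤ x ∧ x < 24 * 4 ^ k := by
    set k := Nat.log 4 (x / 6) with hk
    have hx6 : x / 6 ≠ 0 := by omega
    have h1 : 4 ^ k ≤ x / 6 := Nat.pow_log_le_self 4 hx6
    have h2 : x / 6 < 4 ^ (k + 1) := Nat.lt_pow_succ_log_self (by norm_num) _
    have h3 : (4 : ℕ) ^ (k + 1) = 4 * 4 ^ k := by ring
    exact ⟨k, by omega, by omega⟩
  have h1 := T_count hk1
  have h2 := Behrend.roth_lower_bound (N := 4 ^ k)
  have h3 : (x : ℝ) / 24 ≤ ((4 ^ k : ℕ) : ℝ) := by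
    have : (x : ℝ) < 24 * ((4 ^ k : ℕ) : ℝ) := by exact_mod_cast hk2
    linarith
  have hk0 : 1 ≤ 4 ^ k := Nat.one_le_pow _ _ (by norm_num)
  have h4 : Real.log ((4 ^ k : ℕ) : ℝ) ≤ Real.log x := by
    apply Real.log_le_log
    · exact_mod_cast hk0
    · have : 4 ^ k ≤ x := by omega
      exact_mod_cast this
  have h5 : Real.exp (-4 * √(Real.log x)) ≤ Real.exp (-4 * √(Real.log ((4 ^ k : ℕ) : ℝ))) := by
    apply Real.exp_le_exp.2
    have := Real.sqrt_le_sqrt h4
    linarith
  calc (x : ℝ) / 24 * Real.exp (-4 * √(Real.log x))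
      ≤ ((4 ^ k : ℕ) : ℝ) * Real.exp (-4 * √(Real.log ((4 ^ k : ℕ) : ℝ))) := by
        apply mul_le_mul h3 h5 (Real.exp_pos _).le (by positivity)
    _ ≤ (rothNumberNat (4 ^ k) : ℝ) := h2
    _ ≤ _ := by exact_mod_cast h1

theorem tendsto_sqrt_log : Tendsto (fun x : ℕ => √(Real.log x)) atTop atTop :=
  Real.tendsto_sqrt_atTop.comp (Real.tendsto_log_atTop.comp tendsto_natCast_atTop_atTop)

theorem behrend_type : ∀ᶠ x : ℕ in atTop,
    (x : ℝ) * Real.exp (-5 * √(Real.log x)) ≤ ({i : ℕ | i ∈ T ∧ i < x}.ncard : ℝ) := by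
  filter_upwards [tendsto_sqrt_log.eventually (eventually_ge_atTop (Real.log 24)),
    eventually_ge_atTop 6] with x h1 h2
  refine le_trans ?_ (lower h2)
  have e1 : Real.exp (-5 * √(Real.log x)) =
      Real.exp (-√(Real.log x)) * Real.exp (-4 * √(Real.log x)) := by
    rw [← Real.exp_add]
    congr 1
    ring
  have e2 : Real.exp (-√(Real.log x)) ≤ 1 / 24 := by
    have : Real.exp (-√(Real.log x)) ≤ Real.exp (-Real.log 24) := Real.exp_le_exp.2 (by linarith)
    rw [Real.exp_neg (Real.log 24), Real.exp_log (by norm_num)] at this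
    simpa using this
  rw [e1, ← mul_assoc]
  apply mul_le_mul_of_nonneg_right _ (Real.exp_pos _).le
  have hx : (0 : ℝ) ≤ x := Nat.cast_nonneg x
  calc (x : ℝ) * Real.exp (-√(Real.log x)) ≤ x * (1 / 24) := mul_le_mul_of_nonneg_left e2 hx
    _ = x / 24 := by ring

theorem exponent_lt_one : Real.log 2 / Real.log 3 < 1 := by
  have h3 : 0 < Real.log 3 := Real.log_pos (by norm_num)
  rw [div_lt_one h3]
  exact Real.log_lt_log (by norm_num) (by norm_num)

theorem tendsto_ratio : Tendsto (fun x : ℕ => ({i : ℕ | i ∈ T ∧ i < x}.ncard : ℝ) /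
    (x : ℝ) ^ (Real.log 2 / Real.log 3)) atTop atTop := by
  set α := Real.log 2 / Real.log 3 with hα
  have hα1 : α < 1 := exponent_lt_one
  -- the exponent `(1 - α) L - 5 √L` tends to infinity
  have hexp : Tendsto (fun x : ℕ => √(Real.log x) * ((1 - α) * √(Real.log x) - 5)) atTop atTop := by
    apply Tendsto.atTop_mul_atTop₀ tendsto_sqrt_log
    exact tendsto_atTop_add_const_right _ _ (tendsto_sqrt_log.const_mul_atTop (by linarith))
  have h1 : Tendsto (fun x : ℕ => Real.exp (√(Real.log x) * ((1 - α) * √(Real.log x) - 5)))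
      atTop atTop := Real.tendsto_exp_atTop.comp hexp
  apply tendsto_atTop_mono' _ _ h1
  filter_upwards [behrend_type, eventually_ge_atTop 1] with x hx hx1
  have hx0 : (0 : ℝ) < x := by exact_mod_cast hx1
  have hlog : 0 ≤ Real.log x := Real.log_nonneg (by exact_mod_cast hx1)
  have hpow : 0 < (x : ℝ) ^ α := Real.rpow_pos_of_pos hx0 α
  rw [le_div_iff₀ hpow]
  refine le_trans (le_of_eq ?_) hx
  have e1 : (x : ℝ) ^ α = Real.exp (Real.log x * α) := Real.rpow_def_of_pos hx0 α
  have e2 : (x : ℝ) = Real.exp (Real.log x) := (Real.exp_log hx0).symm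
  have e3 : √(Real.log x) * √(Real.log x) = Real.log x := Real.mul_self_sqrt hlog
  rw [e1, ← Real.exp_add]
  conv_rhs => rw [e2, Real.log_exp, ← Real.exp_add]
  congr 1
  have : √(Real.log x) * ((1 - α) * √(Real.log x) - 5) =
      (1 - α) * (√(Real.log x) * √(Real.log x)) - 5 * √(Real.log x) := by ring
  rw [this, e3]
  ring

/-- **There is an extension of the base ruleset whose set of P-positions is much denser.**  For some
ruleset `M'`, the extension `R = M₀ ∪ M'` satisfies
`limsup A_R(x) / x ^ (log 2 / log 3) = ∞`; more precisely `A_R(x) ≥ x exp (- 5 √(log x))` for all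
sufficiently large `x`. -/
theorem result : ∃ M' : Set (Finset ℕ), IsRuleset M' ∧
    limsup (fun x : ℕ => (((count (M₀ ∪ M') x : ℝ) / (x : ℝ) ^ (Real.log 2 / Real.log 3) : ℝ) : EReal))
      atTop = ⊤ ∧
    ∀ᶠ x : ℕ in atTop, (x : ℝ) * Real.exp (-5 * √(Real.log x)) ≤ count (M₀ ∪ M') x := by
  have hA : A (M₀ ∪ extra T) = T := A_eq (Or.inl (by norm_num)) (Or.inl le_rfl) T_free T_consecutive
  have hcount : ∀ x, count (M₀ ∪ extra T) x = {i : ℕ | i ∈ T ∧ i < x}.ncard := by
    intro x
    unfold count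
    rw [hA]
  refine ⟨extra T, extra_isRuleset T, ?_, ?_⟩
  · simp only [hcount]
    exact (EReal.tendsto_coe_nhds_top_iff.2 tendsto_ratio).limsup_eq
  · simp only [hcount]
    exact behrend_type

end Pool.Agent.Results.MP_c84e26_co.DenserExtension
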